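import Mathlib
import Pool.Agent.MP_abff10_nt.Main

set_option autoImplicit false

namespace Pool.Agent.Results.MP_abff10_nt.PowerSaving

/-- For every `ε > 0` there is `K` such that for every `C`, each finite set of triples `(a, b, c)`
with `a² + b² = c²`, `a` triangular, `b` a positive square, `c` a generalized pentagonal number and
`c ≤ C` has at most `K C^(7/17 + ε)` elements. -/
theorem result (ε : ℝ) (hε : 0 < ε) : ∃ K : ℝ, ∀ (C : ℕ) (A : Finset (ℕ × ℕ × ℕ)),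
    (∀ a b c : ℕ, (a, b, c) ∈ A → a ^ 2 + b ^ 2 = c ^ 2 ∧
      (∃ m : ℕ, 1 ≤ m ∧ 2 * a = m * (m + 1)) ∧ (∃ s : ℕ, 1 ≤ s ∧ b = s ^ 2) ∧
      (∃ n : ℤ, n ≠ 0 ∧ 2 * (c : ℤ) = n * (3 * n - 1)) ∧ c ≤ C) →
    (A.card : ℝ) ≤ K * (C : ℝ) ^ (7 / 17 + ε) :=
  Pool.Agent.MP_abff10_nt.main hε

end Pool.Agent.Results.MP_abff10_nt.PowerSaving
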